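import Pool.Agent.Q298.DWT.K2a
import Pool.Agent.Q298.DWT.K2
import Pool.Agent.Q298.DWT.K3
import Pool.Agent.Q298.DWT.K4
import Pool.Agent.Q298.DWT.K5
import Pool.Agent.Q298.DWT.K6
import Pool.Agent.Q298.DWT.K7
import Pool.Agent.Q176.DWT.K1

/-!
# MP_6f9530_pr: the linear depth constant of exponentially weighted depth-weighted trees

Full answer (yes) to Q1.

* `EG f c`: `f` is positive and `f (k + 1) / f k → c`.
* `dep p n`: the depth of the vertex `n` in the tree in which the parent of the vertex `n ≥ 2` is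
  `p n` and the root is the vertex `1`.
* `IsDWT f μ X`: `X n` is the parent of the vertex `n ≥ 2` in the depth-weighted tree, i.e. given
  the parents of the vertices `2, ..., n`, the parent of the vertex `n + 1` is `i ∈ {1, ..., n}`
  with probability `f (dep i) / ∑_{j ≤ n} f (dep j)`.

For every `c > 1` there is `ν ∈ (0, 1)` such that for every weight function `f` with (EG) with
constant `c` and every depth-weighted tree process, `depth(T_n) / n → ν` almost surely; and such a
process exists for every positive weight function.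
-/

open MeasureTheory Filter Topology Pool.Agent.Q298.DWT

namespace Pool.Agent.Results.MP_6f9530_pr.LinearDepthConstant

theorem result :
    (∀ c : ℝ, 1 < c → ∃ ν : ℝ, 0 < ν ∧ ν < 1 ∧ ∀ f : ℕ → ℝ, EG f c →
      ∀ (Ω : Type) (_ : MeasurableSpace Ω) (μ : Measure Ω) (_ : IsProbabilityMeasure μ)
        (X : ℕ → Ω → ℕ), IsDWT f μ X →
        ∀ᵐ ω ∂μ, Tendsto (fun n : ℕ =>
          (((Finset.Icc 1 n).sup (dep (fun k => X k ω)) : ℕ) : ℝ) / n) atTop (𝓝 ν)) ∧
    (∀ f : ℕ → ℝ, (∀ k, 0 < f k) →
      ∃ (Ω : Type) (_ : MeasurableSpace Ω) (μ : Measure Ω) (_ : IsProbabilityMeasure μ)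
        (X : ℕ → Ω → ℕ), IsDWT f μ X) :=
  ⟨k7 Pool.Agent.Q176.DWT.k1 (k3 Pool.Agent.Q176.DWT.k1 (k2 k2a)) k4 k5, k6⟩

end Pool.Agent.Results.MP_6f9530_pr.LinearDepthConstant
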